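import Pool.Agent.GamP.Final2

/-!
# MP_ca58c9_nt: algebraic values of bounded degree of Morita's gamma function at rationals
-/

namespace Pool.Agent.Results.MP_ca58c9_nt.BoundedDegree

open GamP

/-- For every prime `p` Morita's function exists and is unique, and there is a constant `C` such that for all `d` and
all denominators `b` prime to `p`: (1) for each `e` not divisible by `b` at most `C d^6 log(2b)^2` of the `a < b` have both
values at `a/b` and `(a+e)/b` algebraic of degree at most `d`; (2) for all `a₀`, all `a₁` prime to `b` and `M ≤ b` at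
most `C d^3 √M log(2b)` of the values at `(a₀ + m a₁)/b`, `m < M`, are algebraic of degree at most `d`. -/
theorem result (p : ℕ) [Fact p.Prime] :
    (∃! Γ : ℤ_[p] → ℤ_[p], IsMorita p Γ) ∧
    ∃ C : ℝ, ∀ Γ : ℤ_[p] → ℤ_[p], IsMorita p Γ → ∀ d b : ℕ, 1 ≤ d → ¬ p ∣ b →
      (∀ e : ℕ, ¬ b ∣ e →
        ({a : ℕ | a < b ∧ AlgAt Γ d a b ∧ AlgAt Γ d (a + e) b}.ncard : ℝ) ≤
          C * d ^ 6 * (Real.log (2 * b)) ^ 2) ∧
      ∀ a₀ a₁ M : ℕ, a₁.Coprime b → M ≤ b →
        ({m : ℕ | m < M ∧ AlgAt Γ d (a₀ + m * a₁) b}.ncard : ℝ) ≤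
          C * d ^ 3 * Real.sqrt M * Real.log (2 * b) :=
  main2 p

end Pool.Agent.Results.MP_ca58c9_nt.BoundedDegree
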