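import Pool.Agent.GamE.Final3

/-!
# MP_ca58c9_nt: for each denominator `b` at most `b^ε` of the values of Morita's gamma function at
the fractions with this denominator are algebraic of bounded degree
-/

namespace Pool.Agent.Results.MP_ca58c9_nt.SparseBoundedDegree

open GamP

/-- For every prime `p` Morita's function exists and is unique. For every `ε > 0` there is a constant `C` such that for
all primes `p`, all `d ≥ 1`, all denominators `b` prime to `p`, all `a₀`, all `a₁` prime to `b` and all `M ≤ b`: at most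
`C (p d log(2b))^C M^ε` of the values of Morita's function at `(a₀ + m a₁)/b`, `m < M`, are algebraic of degree at most
`d`. -/
theorem result :
    (∀ (p : ℕ) [Fact p.Prime], ∃! Γ : ℤ_[p] → ℤ_[p], IsMorita p Γ) ∧
    ∀ ε : ℝ, 0 < ε → ∃ C : ℕ, ∀ (p : ℕ) [Fact p.Prime] (Γ : ℤ_[p] → ℤ_[p]), IsMorita p Γ →
      ∀ d b : ℕ, 1 ≤ d → ¬ p ∣ b → ∀ a₀ a₁ M : ℕ, a₁.Coprime b → M ≤ b →
        ({m : ℕ | m < M ∧ AlgAt Γ d (a₀ + m * a₁) b}.ncard : ℝ) ≤
          C * ((p : ℝ) * d * Real.log (2 * b)) ^ C * (M : ℝ) ^ ε :=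
  ⟨fun p _ => exists_morita p, fun _ hε => GamE.main3 hε⟩

end Pool.Agent.Results.MP_ca58c9_nt.SparseBoundedDegree
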